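import Pool.Agent.ZPK.StmtsF

/-!
# Row LOA: assembly of the local theorem
-/

set_option autoImplicit false

namespace Pool.Agent.ZPK.H71

open Polynomial Pool.Agent.ZPT Pool.Agent.ZP3 Pool.Agent.ZPK

theorem Dep_symm {K : Type} [NormedField K] {q q' : K} (h : Dep q q') : Dep q' q := by
  obtain ⟨a, b, ha, hb, h⟩ := h
  exact ⟨b, a, hb, ha, h.symm⟩

theorem Bd_symm {M : ℕ} {K : Type} [NormedField K] {q q' : K} (h : Bd M q q') : Bd M q' q := by
  obtain ⟨a, b, ha, ha', hb, hb', h⟩ := h
  exact ⟨b, a, hb, hb', ha, ha', h.symm⟩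

theorem Bd_mono {M N : ℕ} (hMN : M ≤ N) {K : Type} [NormedField K] {q q' : K} (h : Bd M q q') :
    Bd N q q' := by
  obtain ⟨a, b, ha, ha', hb, hb', h⟩ := h
  exact ⟨a, b, ha, ha'.trans hMN, hb, hb'.trans hMN, h⟩

theorem loa (big : BigStmt) (lcr : LcrStmt) (lnc : LncStmt) : LoaStmt := by
  intro U hU n b e f hB
  obtain ⟨E, p₀, hbig⟩ := big n b e f hB
  refine ⟨p₀, fun p hp hp0 K _ _ _ _ _ hExt ι L hL hfL g hg hG => ?_⟩
  have HB := hbig p hp hp0 K hExt ι L hL hfL g hg
  obtain ⟨Log, hLog, hgen⟩ := hG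
  have HG := hgen U hU
  have LN := lnc U hU p hp K hExt Log hLog L hL n b e _ g E HB HG
  have LC := lcr U hU p hp K hExt Log hLog L hL n b e _ g E HB HG
  constructor
  · intro i j k l hij hik hil hjk hjl hkl hb h1 h2
    obtain ⟨M1, H1⟩ := LN i j k l hij hkl hil hik hjl h1 h2 (fun h => absurd h hjk)
    have key : ∃ M2 : ℕ, ∀ (t : K) (q : Fin n → K), 0 < ‖t‖ → ‖t‖ < 1 → Cr p (e b) t →
        (∀ u ∈ ({i, j, k, l} : Set (Fin n)), At p U (e u) (cf ι (f u)) (g u) t (q u)) →
          Dep (q i) (q j) → Dep (q k) (q l) → Bd M2 (q i) (q j) ∨ Bd M2 (q k) (q l) := by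
      have hb' : b = i ∨ b = j ∨ b = k ∨ b = l := by
        simpa only [Set.mem_insert_iff, Set.mem_singleton_iff] using hb
      rcases hb' with h | h | h | h
      · obtain ⟨M, H⟩ := LC j k l (h ▸ hij) (h ▸ hik) (h ▸ hil) hkl hjl
        refine ⟨M, fun t q ht0 ht1 hc hA hd1 hd2 => ?_⟩
        have r := H t q ht0 ht1 hc (fun x hx => hA x (by
          simp only [Set.mem_insert_iff, Set.mem_singleton_iff] at hx ⊢
          rw [h] at hx
          exact hx)) (by rw [h]; exact hd1) hd2
        rw [h] at r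
        rcases r with r | r | r
        · exact Or.inl r
        · exact Or.inr r
        · exact absurd r.1 hjk
      · obtain ⟨M, H⟩ := LC i k l (h ▸ hij.symm) (h ▸ hjk) (h ▸ hjl) hkl hil
        refine ⟨M, fun t q ht0 ht1 hc hA hd1 hd2 => ?_⟩
        have r := H t q ht0 ht1 hc (fun x hx => hA x (by
          simp only [Set.mem_insert_iff, Set.mem_singleton_iff] at hx ⊢
          rw [h] at hx
          tauto)) (by rw [h]; exact Dep_symm hd1) hd2
        rw [h] at r
        rcases r with r | r | r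
        · exact Or.inl (Bd_symm r)
        · exact Or.inr r
        · exact absurd r.1 hik
      · obtain ⟨M, H⟩ := LC l i j (h ▸ hkl) (h ▸ hik.symm) (h ▸ hjk.symm) hij hjl.symm
        refine ⟨M, fun t q ht0 ht1 hc hA hd1 hd2 => ?_⟩
        have r := H t q ht0 ht1 hc (fun x hx => hA x (by
          simp only [Set.mem_insert_iff, Set.mem_singleton_iff] at hx ⊢
          rw [h] at hx
          tauto)) (by rw [h]; exact hd2) hd1
        rw [h] at r
        rcases r with r | r | r
        · exact Or.inr r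
        · exact Or.inl r
        · exact absurd r.1 hil.symm
      · obtain ⟨M, H⟩ := LC k i j (h ▸ hkl.symm) (h ▸ hil.symm) (h ▸ hjl.symm) hij hjk.symm
        refine ⟨M, fun t q ht0 ht1 hc hA hd1 hd2 => ?_⟩
        have r := H t q ht0 ht1 hc (fun x hx => hA x (by
          simp only [Set.mem_insert_iff, Set.mem_singleton_iff] at hx ⊢
          rw [h] at hx
          tauto)) (by rw [h]; exact Dep_symm hd2) hd1
        rw [h] at r
        rcases r with r | r | r
        · exact Or.inr (Bd_symm r)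
        · exact Or.inl r
        · exact absurd r.1 hik.symm
    obtain ⟨M2, H2⟩ := key
    refine ⟨max M1 M2, fun t q ht0 ht1 hA hc hd1 hd2 => ?_⟩
    rcases hc with hc | hc
    · rcases H1 t q ht0 ht1 hc hA hd1 hd2 with r | r | r
      · exact Or.inl (Bd_mono (le_max_left _ _) r)
      · exact Or.inr (Bd_mono (le_max_left _ _) r)
      · exact absurd r.1 hjk
    · rcases H2 t q ht0 ht1 hc hA hd1 hd2 with r | r
      · exact Or.inl (Bd_mono (le_max_right _ _) r)
      · exact Or.inr (Bd_mono (le_max_right _ _) r)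
  · intro i j k hij hjk hik hb h1
    obtain ⟨M1, H1⟩ := LN i j j k hij hjk hik hij hjk (by tauto) (by tauto) (fun _ => by tauto)
    have key : ∃ M2 : ℕ, ∀ (t : K) (q : Fin n → K), 0 < ‖t‖ → ‖t‖ < 1 → Cr p (e b) t →
        (∀ u ∈ ({i, j, k} : Set (Fin n)), At p U (e u) (cf ι (f u)) (g u) t (q u)) →
          Dep (q i) (q j) → Dep (q j) (q k) → Dep (q i) (q k) →
            Bd M2 (q i) (q j) ∨ Bd M2 (q j) (q k) ∨ Bd M2 (q i) (q k) := by
      have hb' : b = i ∨ b = j ∨ b = k := by
        simpa only [Set.mem_insert_iff, Set.mem_singleton_iff] using hb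
      rcases hb' with h | h | h
      · obtain ⟨M, H⟩ := LC j j k (h ▸ hij) (h ▸ hij) (h ▸ hik) hjk hjk
        refine ⟨M, fun t q ht0 ht1 hc hA hd1 hd2 hd3 => ?_⟩
        have r := H t q ht0 ht1 hc (fun x hx => hA x (by
          simp only [Set.mem_insert_iff, Set.mem_singleton_iff] at hx ⊢
          rw [h] at hx
          tauto)) (by rw [h]; exact hd1) hd2
        rw [h] at r
        rcases r with r | r | r
        · exact Or.inl r
        · exact Or.inr (Or.inl r)
        · exact Or.inr (Or.inr r.2)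
      · obtain ⟨M, H⟩ := LC i i k (h ▸ hij.symm) (h ▸ hij.symm) (h ▸ hjk) hik hik
        refine ⟨M, fun t q ht0 ht1 hc hA hd1 hd2 hd3 => ?_⟩
        have r := H t q ht0 ht1 hc (fun x hx => hA x (by
          simp only [Set.mem_insert_iff, Set.mem_singleton_iff] at hx ⊢
          rw [h] at hx
          tauto)) (by rw [h]; exact Dep_symm hd1) hd3
        rw [h] at r
        rcases r with r | r | r
        · exact Or.inl (Bd_symm r)
        · exact Or.inr (Or.inr r)
        · exact Or.inr (Or.inl r.2)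
      · obtain ⟨M, H⟩ := LC j j i (h ▸ hjk.symm) (h ▸ hjk.symm) (h ▸ hik.symm) hij.symm hij.symm
        refine ⟨M, fun t q ht0 ht1 hc hA hd1 hd2 hd3 => ?_⟩
        have r := H t q ht0 ht1 hc (fun x hx => hA x (by
          simp only [Set.mem_insert_iff, Set.mem_singleton_iff] at hx ⊢
          rw [h] at hx
          tauto)) (by rw [h]; exact Dep_symm hd2) (Dep_symm hd1)
        rw [h] at r
        rcases r with r | r | r
        · exact Or.inr (Or.inl (Bd_symm r))
        · exact Or.inl (Bd_symm r)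
        · exact Or.inr (Or.inr (Bd_symm r.2))
    obtain ⟨M2, H2⟩ := key
    have hset : ({i, j, j, k} : Set (Fin n)) = {i, j, k} := by
      ext x
      simp only [Set.mem_insert_iff, Set.mem_singleton_iff]
      tauto
    rw [hset] at H1
    refine ⟨max M1 M2, fun t q ht0 ht1 hA hc hd1 hd2 hd3 => ?_⟩
    rcases hc with hc | hc
    · rcases H1 t q ht0 ht1 hc hA hd1 hd2 with r | r | r
      · exact Or.inl (Bd_mono (le_max_left _ _) r)
      · exact Or.inr (Or.inl (Bd_mono (le_max_left _ _) r))
      · exact Or.inr (Or.inr (Bd_mono (le_max_left _ _) r.2))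
    · rcases H2 t q ht0 ht1 hc hA hd1 hd2 hd3 with r | r | r
      · exact Or.inl (Bd_mono (le_max_right _ _) r)
      · exact Or.inr (Or.inl (Bd_mono (le_max_right _ _) r))
      · exact Or.inr (Or.inr (Bd_mono (le_max_right _ _) r))

end Pool.Agent.ZPK.H71
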