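import Pool.Agent.ZPK.StmtsR2

/-!
ZPK row NRM: a sum of terms of pairwise different norms.
-/

set_option autoImplicit false

namespace Pool.Agent.ZPK.H71

open Pool.Agent.ZPT Pool.Agent.ZP3

/-- The norm of a sum of terms with pairwise different norms is the norm of one term. -/
theorem nrm_sum {K : Type} [NormedField K] [IsUltrametricDist K] (f : ℕ → K) (s : Finset ℕ)
    (h : ∀ n ∈ s, ∀ n' ∈ s, n ≠ n' → f n ≠ 0 → f n' ≠ 0 → ‖f n‖ ≠ ‖f n'‖) :
    (∑ n ∈ s, f n = 0) ∨ ∃ n ∈ s, f n ≠ 0 ∧ ‖∑ n ∈ s, f n‖ = ‖f n‖ := by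
  classical
  induction s using Finset.induction_on with
  | empty => left; simp
  | insert a s has ih =>
    have ih' := ih (fun n hn n' hn' => h n (Finset.mem_insert_of_mem hn) n'
      (Finset.mem_insert_of_mem hn'))
    rw [Finset.sum_insert has]
    by_cases ha : f a = 0
    · rw [ha, zero_add]
      rcases ih' with h1 | ⟨n, hn, hn0, h1⟩
      · left; exact h1
      · right; exact ⟨n, Finset.mem_insert_of_mem hn, hn0, h1⟩
    · rcases ih' with h1 | ⟨n, hn, hn0, h1⟩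
      · right
        refine ⟨a, Finset.mem_insert_self a s, ha, ?_⟩
        rw [h1, add_zero]
      · right
        have hne : n ≠ a := fun h => has (h ▸ hn)
        have h2 := h n (Finset.mem_insert_of_mem hn) a (Finset.mem_insert_self a s) hne hn0 ha
        have h3 : ‖f a + ∑ n ∈ s, f n‖ = max ‖f a‖ ‖∑ n ∈ s, f n‖ :=
          IsUltrametricDist.norm_add_eq_max_of_norm_ne_norm (by rw [h1]; exact fun h => h2 h.symm)
        rcases max_choice ‖f a‖ ‖∑ n ∈ s, f n‖ with h4 | h4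
        · exact ⟨a, Finset.mem_insert_self a s, ha, by rw [h3, h4]⟩
        · exact ⟨n, Finset.mem_insert_of_mem hn, hn0, by rw [h3, h4, h1]⟩

theorem nrm_t1 {P c T : ℝ} (hP : 0 < P) (Q pb n : ℕ) (k : ℤ) (hT : T ^ Q = P⁻¹ ^ pb)
    (hc : c = P ^ k) : (c * T ^ n) ^ Q = P ^ (k * Q - n * pb) := by
  have h1 : (T ^ n) ^ Q = P ^ (-((n : ℤ) * pb)) := by
    rw [← pow_mul, mul_comm n Q, pow_mul, hT, ← pow_mul, inv_pow, zpow_neg, mul_comm pb n]
    rw [← Nat.cast_mul, zpow_natCast]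
  rw [mul_pow, h1, hc, ← zpow_natCast (P ^ k) Q, ← zpow_mul, ← zpow_add₀ hP.ne']
  rfl

theorem nrm_t3 {P c T : ℝ} (hP : 0 < P) (Q pb n φ : ℕ) (k : ℤ) (hT : T ^ Q = P⁻¹ ^ pb)
    (hc : c ^ φ = (P ^ k) ^ φ * P⁻¹) :
    (c * T ^ n) ^ (Q * φ) = P ^ ((k * φ - 1) * Q - n * pb * φ) := by
  have h1 : (T ^ n) ^ (Q * φ) = P ^ (-((n : ℤ) * pb * φ)) := by
    rw [← pow_mul, show n * (Q * φ) = Q * (n * φ) by ring, pow_mul, hT, ← pow_mul, inv_pow,
      zpow_neg, show pb * (n * φ) = n * pb * φ by ring]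
    rw [← Nat.cast_mul, ← Nat.cast_mul, zpow_natCast]
  have h2 : c ^ (Q * φ) = P ^ ((k * φ - 1) * Q) := by
    rw [mul_comm Q φ, pow_mul, hc, ← zpow_natCast (P ^ k) φ, ← zpow_mul, ← zpow_neg_one,
      ← zpow_add₀ hP.ne', ← zpow_natCast _ Q, ← zpow_mul]
    rfl
  rw [mul_pow, h1, h2, ← zpow_add₀ hP.ne']
  rfl

/-- NRM. -/
theorem nrm (hunv : UnvStmt) (hunc : UncStmt) : NrmStmt := by
  intro p hp hp5 K _ _ _ hext L hL α β₀ ζ t m e' β n₁ hα hβ₀ hζ hm1 hmn hn1 he' hme hβ ht hX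
  classical
  obtain ⟨hu1, hu2⟩ := hunv p hp K hext L hL
  set P : ℝ := (p : ℝ) with hPdef
  have hP1 : 1 < P := by
    rw [hPdef]; exact_mod_cast (by omega : 1 < p)
  have hP0 : 0 < P := by linarith
  obtain ⟨pb, hpb⟩ : ∃ pb : ℕ, pb = p ^ β := ⟨_, rfl⟩
  obtain ⟨Q, hQ⟩ : ∃ Q : ℕ, Q = m + e' * pb := ⟨_, rfl⟩
  rw [← hpb, ← hQ] at ht
  have hppb : p ∣ pb := by rw [hpb]; exact dvd_pow_self p (by omega)
  have hpbp : p ≤ pb := by
    rw [hpb]
    calc p = p ^ 1 := (pow_one p).symm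
      _ ≤ p ^ β := Nat.pow_le_pow_right (by omega) hβ
  have hQp : m + p ≤ Q := by
    rw [hQ]; nlinarith
  -- coprimality of Q and p
  have hmp : ¬ p ∣ m := fun h => by
    have := Nat.le_of_dvd (by omega) h
    omega
  have hQnp : ¬ p ∣ Q := by
    intro h
    apply hmp
    rw [hQ] at h
    exact (Nat.dvd_add_left (Dvd.dvd.mul_left hppb e')).1 h
  have hcop : Nat.Coprime p Q := (Nat.Prime.coprime_iff_not_dvd hp).2 hQnp
  have hcopZ : IsCoprime (Q : ℤ) (pb : ℤ) := by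
    rw [Nat.isCoprime_iff_coprime, hpb]
    exact Nat.Coprime.pow_right β hcop.symm
  have hcopp : IsCoprime (Q : ℤ) (p : ℤ) := by
    rw [Nat.isCoprime_iff_coprime]; exact hcop.symm
  -- Q is not divisible by p - 1
  have hQm : ¬ ((p : ℤ) - 1) ∣ (Q : ℤ) := by
    intro h
    have h1 : ((p : ℤ) - 1) ∣ (pb : ℤ) - 1 := by
      rw [hpb]; push_cast
      have := sub_dvd_pow_sub_pow (p : ℤ) 1 β
      rwa [one_pow] at this
    have h2 : ((p : ℤ) - 1) ∣ ((m + e' : ℕ) : ℤ) := by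
      have e1 : ((m + e' : ℕ) : ℤ) = (Q : ℤ) - (e' : ℤ) * ((pb : ℤ) - 1) := by
        rw [hQ]; push_cast; ring
      rw [e1]
      exact dvd_sub h (Dvd.dvd.mul_left h1 _)
    have h3 := Int.le_of_dvd (by push_cast; omega) h2
    push_cast at h3
    omega
  have hcopm : IsCoprime ((p : ℤ) - 1) (p : ℤ) := ⟨-1, 1, by ring⟩
  -- positivity of the norm of t
  have hT0 : 0 < ‖t‖ := by
    rcases (norm_nonneg t).lt_or_eq with h | h
    · exact h
    · exfalso
      rw [← h, zero_pow (by omega)] at ht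
      have : 0 < P⁻¹ ^ pb := by positivity
      linarith
  -- the terms
  obtain ⟨f, hf⟩ : ∃ f : ℕ → K, f = fun n => (if n = m then α m - ζ * β₀ else α n) * t ^ n :=
    ⟨_, rfl⟩
  have hsum : ∑ n ∈ Finset.range n₁, α n * t ^ n - ζ * β₀ * t ^ m = ∑ n ∈ Finset.range n₁, f n := by
    have h1 : ∀ n, f n = α n * t ^ n - (if n = m then ζ * β₀ * t ^ m else 0) := by
      intro n
      rw [hf]
      by_cases h : n = m
      · simp only [h, if_true]; ring
      · simp only [h, if_false]; ring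
    rw [Finset.sum_congr rfl (fun n _ => h1 n), Finset.sum_sub_distrib, Finset.sum_ite_eq',
      if_pos (Finset.mem_range.2 hmn)]
  -- the type of a nonzero term
  have htype : ∀ n, f n ≠ 0 → (∃ k : ℤ, ‖f n‖ ^ Q = P ^ (k * Q - n * pb)) ∨
      (n = m ∧ ∃ (k : ℤ) (h : ℕ), ‖f n‖ ^ (Q * (p ^ h * (p - 1))) =
        P ^ ((k * ((p ^ h * (p - 1) : ℕ) : ℤ) - 1) * Q - n * pb * ((p ^ h * (p - 1) : ℕ) : ℤ))) := by
    intro n hn
    have e1 : f n = (if n = m then α m - ζ * β₀ else α n) * t ^ n := by rw [hf]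
    by_cases h : n = m
    · rw [if_pos h] at e1
      have e2 : ‖f n‖ = ‖α m - ζ * β₀‖ * ‖t‖ ^ n := by rw [e1, norm_mul, norm_pow]
      rcases hunc p hp hp5 K hext L hL (α m) (hα m) β₀ hβ₀ ζ hζ with h1 | ⟨k, h1⟩ | ⟨k, j, h1⟩
      · exfalso; apply hn
        rw [e1, norm_eq_zero.1 h1, zero_mul]
      · left
        refine ⟨k, ?_⟩
        rw [e2]
        exact nrm_t1 hP0 Q pb n k ht h1
      · right
        refine ⟨h, k, j, ?_⟩
        rw [e2]
        exact nrm_t3 hP0 Q pb n _ k ht h1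
    · rw [if_neg h] at e1
      have e2 : ‖f n‖ = ‖α n‖ * ‖t‖ ^ n := by rw [e1, norm_mul, norm_pow]
      have h0 : α n ≠ 0 := by
        intro h0
        apply hn
        rw [e1, h0, zero_mul]
      obtain ⟨k, h1⟩ := hu2 (α n) (hα n) h0
      left
      refine ⟨k, ?_⟩
      rw [e2]
      exact nrm_t1 hP0 Q pb n k ht h1
  have hinj : ∀ a b : ℤ, P ^ a = P ^ b → a = b := fun a b h =>
    zpow_right_injective₀ hP0 hP1.ne' h
  have hdm : ∀ h : ℕ, ((p : ℤ) - 1) ∣ ((p ^ h * (p - 1) : ℕ) : ℤ) := by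
    intro h
    rw [Nat.cast_mul, Nat.cast_sub (by omega : 1 ≤ p)]
    exact Dvd.intro_left _ (by push_cast; rfl)
  -- pairwise different norms, one direction
  have hdiff : ∀ n n', n ≠ n' → n ≠ m → n < n₁ → n' < n₁ → f n ≠ 0 → f n' ≠ 0 →
      ‖f n‖ ≠ ‖f n'‖ := by
    intro n n' hnn hnm hn hn' h0 h0' heq
    rcases htype n h0 with ⟨k, h1⟩ | ⟨h1, -⟩
    swap
    · exact hnm h1
    rcases htype n' h0' with ⟨k', h2⟩ | ⟨h2, k', j, h3⟩
    · rw [heq, h2] at h1
      have h3 := hinj _ _ h1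
      have h4 : (Q : ℤ) ∣ ((n : ℤ) - n') * pb := ⟨k - k', by linear_combination h3⟩
      have h5 : (Q : ℤ) ∣ (n : ℤ) - n' := hcopZ.dvd_of_dvd_mul_right h4
      have h6 : (n : ℤ) - n' = 0 := by
        apply Int.eq_zero_of_abs_lt_dvd h5
        rw [abs_lt]
        constructor <;> omega
      omega
    · have h4 : ‖f n‖ ^ (Q * (p ^ j * (p - 1))) =
          P ^ ((k * Q - n * pb) * ((p ^ j * (p - 1) : ℕ) : ℤ)) := by
        rw [pow_mul, h1, ← zpow_natCast (P ^ _) (p ^ j * (p - 1)), ← zpow_mul]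
      rw [heq, h3] at h4
      have h5 := hinj _ _ h4
      apply hQm
      obtain ⟨u, hu⟩ := hdm j
      rw [hu] at h5
      refine ⟨u * (k' * Q - n' * pb - (k * Q - n * pb)), ?_⟩
      linear_combination -h5
  have hpair : ∀ n ∈ Finset.range n₁, ∀ n' ∈ Finset.range n₁, n ≠ n' → f n ≠ 0 → f n' ≠ 0 →
      ‖f n‖ ≠ ‖f n'‖ := by
    intro n hn n' hn' hnn h0 h0'
    rw [Finset.mem_range] at hn hn'
    by_cases h : n = m
    · have h' : n' ≠ m := fun h' => hnn (h.trans h'.symm)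
      exact fun he => hdiff n' n (Ne.symm hnn) h' hn' hn h0' h0 he.symm
    · exact hdiff n n' hnn h hn hn' h0 h0'
  rw [hsum] at hX
  rcases nrm_sum f (Finset.range n₁) hpair with h1 | ⟨n, hn, hn0, h1⟩
  · rw [h1, norm_zero, zero_pow (by omega)] at hX
    have : 0 < P⁻¹ ^ p * ‖t‖ ^ m := by positivity
    linarith
  · rw [h1] at hX
    rw [Finset.mem_range] at hn
    -- the Q-th power of the right side
    have hR : (P⁻¹ ^ p * ‖t‖ ^ m) ^ Q = P ^ (-((p : ℤ)) * Q - m * pb) := by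
      apply nrm_t1 hP0 Q pb m (-(p : ℤ)) ht
      rw [zpow_neg, zpow_natCast, inv_pow]
    rcases htype n hn0 with ⟨k, h2⟩ | ⟨h2, k, j, h3⟩
    · have h4 : (‖f n‖ ^ p) ^ Q = P ^ ((k * Q - n * pb) * (p : ℤ)) := by
        rw [← pow_mul, mul_comm p Q, pow_mul, h2, ← zpow_natCast (P ^ _) p, ← zpow_mul]
      rw [hX, hR] at h4
      have h5 := hinj _ _ h4
      -- (p n - m) pb = p (k + 1) Q
      have h6 : (Q : ℤ) ∣ ((p : ℤ) * n - m) * pb := ⟨p * (k + 1), by linear_combination h5⟩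
      have h7 : (Q : ℤ) ∣ (p : ℤ) * n - m := hcopZ.dvd_of_dvd_mul_right h6
      obtain ⟨i, hi⟩ := h7
      rcases Nat.eq_zero_or_pos n with h8 | h8
      · subst h8
        have h9 : (Q : ℤ) ∣ (m : ℤ) := ⟨-i, by push_cast at hi; linear_combination -hi⟩
        have := Int.le_of_dvd (by exact_mod_cast (by omega : 0 < m)) h9
        omega
      · have h9 : (0 : ℤ) < (p : ℤ) * n - m := by
          have : (p : ℤ) ≤ (p : ℤ) * n := by
            have : (1 : ℤ) ≤ n := by exact_mod_cast h8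
            nlinarith
          omega
        have hi0 : 0 < i := by
          rw [hi] at h9
          by_contra hc
          push Not at hc
          have hQ0 : (0 : ℤ) ≤ Q := by positivity
          nlinarith
        have h10 : (p : ℤ) ∣ (i + 1) * m := by
          have e1 : (i + 1) * (m : ℤ) = p * n - e' * pb * i := by
            have e2 : (Q : ℤ) = m + e' * pb := by rw [hQ]; push_cast; ring
            rw [e2] at hi
            linear_combination -hi
          rw [e1]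
          apply dvd_sub (dvd_mul_right _ _)
          apply Dvd.dvd.mul_right
          apply Dvd.dvd.mul_left
          exact_mod_cast hppb
        have h11 : (p : ℤ) ∣ i + 1 := by
          rcases (Nat.prime_iff_prime_int.1 hp).dvd_or_dvd h10 with h | h
          · exact h
          · exact absurd (by exact_mod_cast h) hmp
        have h12 := Int.le_of_dvd (by omega) h11
        have h13 : (p : ℤ) * n ≤ p * (p - 2) := by
          have : (n : ℤ) ≤ p - 2 := by omega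
          nlinarith
        have h14 : ((p : ℤ) - 1) * (m + p) ≤ i * Q := by
          have e1 : (p : ℤ) - 1 ≤ i := by omega
          have e2 : (m : ℤ) + p ≤ Q := by exact_mod_cast hQp
          have e3 : (0 : ℤ) ≤ m + p := by positivity
          nlinarith
        have hp5' : (5 : ℤ) ≤ p := by exact_mod_cast hp5
        have hm0 : (1 : ℤ) ≤ m := by exact_mod_cast hm1
        nlinarith
    · have h4 : (‖f n‖ ^ p) ^ (Q * (p ^ j * (p - 1))) =
          P ^ (((k * ((p ^ j * (p - 1) : ℕ) : ℤ) - 1) * Q -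
            n * pb * ((p ^ j * (p - 1) : ℕ) : ℤ)) * (p : ℤ)) := by
        rw [← pow_mul, mul_comm p (Q * _), pow_mul, h3, ← zpow_natCast (P ^ _) p, ← zpow_mul]
      rw [hX, pow_mul, hR, ← zpow_natCast (P ^ _) (p ^ j * (p - 1)), ← zpow_mul] at h4
      have h5 := hinj _ _ h4
      apply hQm
      have h6 : ((p : ℤ) - 1) ∣ (Q : ℤ) * p := by
        obtain ⟨u, hu⟩ := hdm j
        rw [hu] at h5
        refine ⟨u * ((k * Q - n * pb) * p - (-(p : ℤ) * Q - m * pb)), ?_⟩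
        linear_combination h5
      exact hcopm.dvd_of_dvd_mul_right h6

end Pool.Agent.ZPK.H71
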