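import Pool.Agent.ZPK.StmtsT

/-!
ZPK row RTL: a pair of large coordinates and a radial pair.
-/

set_option autoImplicit false

namespace Pool.Agent.ZPK.H71

open Pool.Agent.ZPT Pool.Agent.ZP3

/-- The vector of a slope. -/
def rtlv {n : ℕ} (e : Fin n → ℕ) (e₀ : ℕ) (u s : Fin n) : ℤ := if s = u ∧ e u = e₀ then 1 else 0

theorem rtlv_sum {K : Type} [NormedField K] {n : ℕ} (e : Fin n → ℕ) (e₀ : ℕ) (lam : Fin n → K)
    (u : Fin n) : ∑ s, ((rtlv e e₀ u s : ℤ) : K) * lam s = if e u = e₀ then lam u else 0 := by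
  classical
  rw [Finset.sum_eq_single u]
  · unfold rtlv
    by_cases h : e u = e₀
    · rw [if_pos ⟨rfl, h⟩, if_pos h]; simp
    · rw [if_neg (fun hh => h hh.2), if_neg h]; simp
  · intro s _ hs
    unfold rtlv
    rw [if_neg (fun hh => hs hh.1)]; simp
  · intro h
    exact absurd (Finset.mem_univ u) h

theorem rtlv_01 {n : ℕ} (e : Fin n → ℕ) (e₀ : ℕ) (u s : Fin n) :
    0 ≤ rtlv e e₀ u s ∧ rtlv e e₀ u s ≤ 1 ∧ (e s ≠ e₀ → rtlv e e₀ u s = 0) := by
  unfold rtlv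
  by_cases h : s = u ∧ e u = e₀
  · rw [if_pos h]
    refine ⟨by norm_num, le_refl _, fun h1 => ?_⟩
    exact absurd (by rw [h.1]; exact h.2) h1
  · rw [if_neg h]
    exact ⟨le_refl _, by norm_num, fun _ => rfl⟩

theorem rtl_fi {K : Type} [NormedField K] {n : ℕ} (S : Set (Fin n)) (lam : Fin n → K)
    (h : FI S lam) (c d : Fin n → ℤ) (hb : ∀ i, |c i| ≤ 2 ∧ |d i| ≤ 2 ∧ (i ∉ S → c i = 0 ∧ d i = 0))
    (hne : ∃ i j, c i * d j ≠ c j * d i) (m : ℤ) :
    ‖(∑ s, ((c s : ℤ) : K) * lam s) - (m : K) * ∑ s, ((d s : ℤ) : K) * lam s‖ = 1 := by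
  rw [← h c d hb hne m]
  congr 1
  rw [Finset.mul_sum, ← Finset.sum_sub_distrib]
  apply Finset.sum_congr rfl
  intro s _
  push_cast
  ring

theorem rtl_fi3 {K : Type} [NormedField K] {n : ℕ} (e : Fin n → ℕ) (e₀ : ℕ) (lam : Fin n → K)
    (h : FI {i | e i = e₀} lam) (i k l : Fin n)
    (hne : ∃ a b, (rtlv e e₀ i a - rtlv e e₀ l a) * (rtlv e e₀ k b - rtlv e e₀ l b) ≠
      (rtlv e e₀ i b - rtlv e e₀ l b) * (rtlv e e₀ k a - rtlv e e₀ l a)) (m : ℤ) :
    ‖((if e i = e₀ then lam i else 0) - (if e l = e₀ then lam l else 0)) -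
      (m : K) * ((if e k = e₀ then lam k else 0) - (if e l = e₀ then lam l else 0))‖ = 1 := by
  have h1 := rtl_fi _ lam h (fun s => rtlv e e₀ i s - rtlv e e₀ l s)
    (fun s => rtlv e e₀ k s - rtlv e e₀ l s) (by
      intro s
      obtain ⟨a1, a2, a3⟩ := rtlv_01 e e₀ i s
      obtain ⟨b1, b2, b3⟩ := rtlv_01 e e₀ k s
      obtain ⟨c1, c2, c3⟩ := rtlv_01 e e₀ l s
      refine ⟨abs_le.2 ⟨by linarith, by linarith⟩, abs_le.2 ⟨by linarith, by linarith⟩,
        fun hs => ?_⟩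
      have hs' : e s ≠ e₀ := hs
      constructor
      · show rtlv e e₀ i s - rtlv e e₀ l s = 0
        rw [a3 hs', c3 hs', sub_zero]
      · show rtlv e e₀ k s - rtlv e e₀ l s = 0
        rw [b3 hs', c3 hs', sub_zero]) hne m
  have e1 : ∀ u, ∑ s, (((rtlv e e₀ u s - rtlv e e₀ l s : ℤ)) : K) * lam s =
      (if e u = e₀ then lam u else 0) - (if e l = e₀ then lam l else 0) := by
    intro u
    rw [← rtlv_sum e e₀ lam u, ← rtlv_sum e e₀ lam l, ← Finset.sum_sub_distrib]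
    apply Finset.sum_congr rfl
    intro s _
    push_cast
    ring
  rw [e1 i, e1 k] at h1
  exact h1

theorem rtl_fi2 {K : Type} [NormedField K] {n : ℕ} (e : Fin n → ℕ) (e₀ : ℕ) (lam : Fin n → K)
    (h : FI {i | e i = e₀} lam) (k l : Fin n) (hkl : k ≠ l) (hk : e k = e₀) (hl : e l = e₀) :
    ‖lam k - lam l‖ = 1 := by
  have h1 := rtl_fi _ lam h (fun s => rtlv e e₀ k s - rtlv e e₀ l s)
    (fun s => rtlv e e₀ k s) (by
      intro s
      obtain ⟨b1, b2, b3⟩ := rtlv_01 e e₀ k s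
      obtain ⟨c1, c2, c3⟩ := rtlv_01 e e₀ l s
      refine ⟨abs_le.2 ⟨by linarith, by linarith⟩, abs_le.2 ⟨by linarith, by linarith⟩,
        fun hs => ?_⟩
      have hs' : e s ≠ e₀ := hs
      constructor
      · show rtlv e e₀ k s - rtlv e e₀ l s = 0
        rw [b3 hs', c3 hs', sub_zero]
      · exact b3 hs') ⟨k, l, by
        have a1 : rtlv e e₀ k k = 1 := if_pos ⟨rfl, hk⟩
        have a2 : rtlv e e₀ l k = 0 := if_neg (fun hh => hkl hh.1)
        have a3 : rtlv e e₀ k l = 0 := if_neg (fun hh => hkl hh.1.symm)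
        have a4 : rtlv e e₀ l l = 1 := if_pos ⟨rfl, hl⟩
        show (rtlv e e₀ k k - rtlv e e₀ l k) * rtlv e e₀ k l ≠
          (rtlv e e₀ k l - rtlv e e₀ l l) * rtlv e e₀ k k
        rw [a1, a2, a3, a4]; norm_num⟩ 0
  have e1 : ∑ s, (((rtlv e e₀ k s - rtlv e e₀ l s : ℤ)) : K) * lam s = lam k - lam l := by
    have e2 := rtlv_sum e e₀ lam k
    have e3 := rtlv_sum e e₀ lam l
    rw [if_pos hk] at e2
    rw [if_pos hl] at e3
    rw [← e2, ← e3, ← Finset.sum_sub_distrib]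
    apply Finset.sum_congr rfl
    intro s _
    push_cast
    ring
  rw [e1, Int.cast_zero, zero_mul, sub_zero] at h1
  exact h1

theorem rtl_normp {p : ℕ} {K : Type} [NormedField K] [CharZero K] (hp : p.Prime) (hext : Ext p K) :
    ‖(p : K)‖ = (p : ℝ)⁻¹ := by
  have h := hext (p : ℚ)
  rw [Rat.cast_natCast] at h
  rw [h, padicNorm.padicNorm_p hp.one_lt]
  push_cast
  rfl

/-- The asymmetric form. -/
theorem rtl_aux (hthb : THBStmt) (hunv : UnvStmt) (hnum : NumStmt)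
    (hpbl : PblStmt) (htpl : TplStmt) (hqvi : QviStmt) (hgti : GtiStmt) :
    ∀ U : PowerSeries ℚ, IsU U → ∀ p E : ℕ, p.Prime → 1 ≤ E → 1000 * (E + 1) ^ 2 < p →
    ∀ (K : Type) [NormedField K] [CharZero K] [IsUltrametricDist K] [CompleteSpace K]
      [IsAlgClosed K], Ext p K → ∀ Log : K → K, IsLog p Log → ∀ L : Subfield K, Unr p L →
    ∀ (n : ℕ) (e : Fin n → ℕ) (A : Fin n → ℕ → K) (g : Fin n → K), (∀ i, Cd L (e i) (A i) (g i)) →
    (∀ i, e i ≤ E) → Gen p Log ((PowerSeries.coeff 1 U : ℚ) : K) e A g →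
    ∀ i j k l : Fin n, k ≠ l → 1 ≤ e i → 1 ≤ e k → e k ≤ e l → ∃ M : ℕ,
    ∀ (t : K) (q : Fin n → K),
    0 < ‖t‖ → La p (e i) t → Sm p (e j) t → La p (e k) t → La p (e l) t →
    (∀ u ∈ ({i, j, k, l} : Set (Fin n)), At p U (e u) (A u) (g u) t (q u)) →
    Dep (q i) (q j) → Dep (q k) (q l) → Bd M (q k) (q l) := by
  intro U hU p E hp hE hpE K _ _ _ _ _ hext Log hLog L hL n e A g hCd hele hGen i j k l hkl hei
    hek hekl
  obtain ⟨M, hM⟩ := hpbl U hU p E hp hE hpE K hext L hL (e k) (e l) (A k) (A l) (g k) (g l)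
    (hCd k) (hCd l) hek hekl (hele l)
  refine ⟨M, ?_⟩
  intro t q ht0 hLi hSj hLk hLl hAt hDij hDkl
  have mi : i ∈ ({i, j, k, l} : Set (Fin n)) := by simp
  have mj : j ∈ ({i, j, k, l} : Set (Fin n)) := by simp
  have mk : k ∈ ({i, j, k, l} : Set (Fin n)) := by simp
  have ml : l ∈ ({i, j, k, l} : Set (Fin n)) := by simp
  by_cases hz : ‖t ^ (e k) / (p : K)‖ < th p
  · exact hM t (q k) (q l) ht0 hLk hz (hAt k mk) (hAt l ml) hDkl
  exfalso
  push Not at hz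
  have hp5 : 5 ≤ p := by nlinarith
  have hp11 : 11 ≤ p := by nlinarith
  have hpr : (0 : ℝ) < (p : ℝ) := by exact_mod_cast (by omega : 0 < p)
  have hpinv : (0 : ℝ) < (p : ℝ)⁻¹ := inv_pos.2 hpr
  have hpinv1 : (p : ℝ)⁻¹ < 1 := by
    apply inv_lt_one_of_one_lt₀
    exact_mod_cast (by omega : 1 < p)
  obtain ⟨-, hth0, hth1, -, -⟩ := hthb p hp hp5
  obtain ⟨-, hrh0, hrh, hnum'⟩ := hnum p E hp hE hpE
  have hnp := rtl_normp hp hext
  have hpK : (p : K) ≠ 0 := by exact_mod_cast hp.ne_zero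
  have hLk' : ‖t‖ ^ (e k) < (p : ℝ)⁻¹ := hLk
  have ht1 : ‖t‖ < 1 := by
    by_contra hc
    push Not at hc
    have := one_le_pow₀ (n := e k) hc
    linarith
  have hzn : ‖t ^ (e k) / (p : K)‖ = ‖t‖ ^ (e k) * p := by
    rw [norm_div, norm_pow, hnp, div_inv_eq_mul]
  have hz1 : ‖t ^ (e k) / (p : K)‖ < 1 := by
    rw [hzn]
    calc ‖t‖ ^ (e k) * p < (p : ℝ)⁻¹ * p := mul_lt_mul_of_pos_right hLk' hpr
      _ = 1 := inv_mul_cancel₀ hpr.ne'
  have hrh6 : rh p E < th p ^ 6 :=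
    lt_of_lt_of_le hrh (pow_le_pow_of_le_one hth0.le hth1.le (by norm_num))
  have hrh1 : rh p E < 1 := lt_of_lt_of_le hrh6 (pow_le_one₀ hth0.le hth1.le)
  have hth2 : th p ^ 2 ≤ ‖t‖ ^ (e k) * p := by
    rw [← hzn]
    refine le_trans ?_ hz
    calc th p ^ 2 ≤ th p ^ 1 := pow_le_pow_of_le_one hth0.le hth1.le (by norm_num)
      _ = th p := pow_one _
  obtain ⟨hn1, hn2, -⟩ := hnum' ‖t‖ (e k) ht0 ht1 hek (hele k)
  have htrh : ‖t‖ ≤ rh p E := hn1 hLk'
  -- exponents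
  have hki : e k ≤ e i := by
    by_contra hc
    push Not at hc
    have h1 := hn2 hLk' hth2 (e i) hc
    have hLi' : ‖t‖ ^ (e i) < (p : ℝ)⁻¹ := hLi
    have h2 : 0 < ‖t‖ ^ (e i) := pow_pos ht0 _
    have h3 : 1 < (p : ℝ)⁻¹ / ‖t‖ ^ (e i) := (one_lt_div h2).2 hLi'
    linarith
  have hjk : e j < e k := by
    by_contra hc
    push Not at hc
    have h1 : ‖t‖ ^ (e j) ≤ ‖t‖ ^ (e k) := pow_le_pow_of_le_one ht0.le ht1.le hc
    have hSj' : (p : ℝ)⁻¹ < ‖t‖ ^ (e j) := hSj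
    linarith
  obtain ⟨hu1, -⟩ := hunv p hp K hext L hL
  -- slopes
  have hslope : ∀ u, 1 ≤ e u → Ur p (lL (e k) (e u) (A u) (g u)) := by
    intro u hu
    apply hu1
    · unfold lL
      split_ifs
      · exact L.div_mem (hCd u).gL ((hCd u).An 0)
      · exact L.zero_mem
    · unfold lL
      split_ifs
      · rw [norm_div, (hCd u).g1, (hCd u).A0 hu, div_one]
      · rw [norm_zero]; norm_num
  have hUg : Uu p (g j) := ⟨hu1 _ (hCd j).gL (le_of_eq (hCd j).g1), (hCd j).g1⟩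
  obtain ⟨h, hh, H1⟩ := htpl U hU p E hp hE hpE K hext L hL (e k) (e l) (A k) (A l) (g k) (g l)
    (hCd k) (hCd l) hek hekl (hele l)
  obtain ⟨ζ, hζ, hle, -⟩ := H1 t (q k) (q l) ht0 hLk (hAt k mk) (hAt l ml) hDkl
  obtain ⟨a, ha, H2⟩ := hqvi U hU p E hp hE hpE K hext L hL (e k) (e i) (e j) (A i) (A j) (g i)
    (g j) (hCd i) (hCd j) hek hki (hele i) hjk
  obtain ⟨Qv, Qu, A', B', hA', hB', hQ, hQv, hQu⟩ := H2 t (q i) (q j) ht0 hLk hz (hAt i mi)
    (hAt j mj) hDij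
  have hinf := hGen.infty (e k) hek
  have hl12 : ‖lL (e k) (e k) (A k) (g k) - lL (e k) (e l) (A l) (g l)‖ = 1 := by
    by_cases hl : e l = e k
    · have h1 := rtl_fi2 e (e k) _ hinf k l hkl rfl hl
      unfold lL
      rw [if_pos rfl, if_pos hl]
      exact h1
    · unfold lL
      rw [if_pos rfl, if_neg hl, sub_zero, norm_div, (hCd k).g1, (hCd k).A0 hek, div_one]
  have hlast : lL (e k) (e i) (A i) (g i) = lL (e k) (e k) (A k) (g k) ∨
      lL (e k) (e i) (A i) (g i) = lL (e k) (e l) (A l) (g l) ∨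
      ∀ m : ℤ, ‖lL (e k) (e i) (A i) (g i) - lL (e k) (e l) (A l) (g l) -
        m * (lL (e k) (e k) (A k) (g k) - lL (e k) (e l) (A l) (g l))‖ = 1 := by
    by_cases hik : i = k
    · left; rw [hik]
    by_cases hil : i = l
    · right; left; rw [hil]
    by_cases h0 : e i ≠ e k ∧ e l ≠ e k
    · right; left
      unfold lL
      rw [if_neg h0.1, if_neg h0.2]
    right; right
    intro m
    have hrec := rtl_fi3 e (e k) (fun s => g s / A s 0) hinf i k l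
    refine hrec ?_ m
    have vkk : rtlv e (e k) k k = 1 := if_pos ⟨rfl, rfl⟩
    have vlk : rtlv e (e k) l k = 0 := if_neg (fun hh => hkl hh.1)
    have vik : rtlv e (e k) i k = 0 := if_neg (fun hh => hik hh.1.symm)
    have vki : rtlv e (e k) k i = 0 := if_neg (fun hh => hik hh.1)
    have vli : rtlv e (e k) l i = 0 := if_neg (fun hh => hil hh.1)
    have vil : rtlv e (e k) i l = 0 := if_neg (fun hh => hil hh.1.symm)
    by_cases h1 : e i = e k
    · refine ⟨i, k, ?_⟩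
      have vii : rtlv e (e k) i i = 1 := if_pos ⟨rfl, h1⟩
      rw [vkk, vlk, vik, vki, vli, vii]
      norm_num
    · have h2 : e l = e k := by
        by_contra h2
        exact h0 ⟨h1, h2⟩
      refine ⟨l, k, ?_⟩
      have vll : rtlv e (e k) l l = 1 := if_pos ⟨rfl, h2⟩
      rw [vkk, vlk, vik, vil, vll]
      norm_num
  exact hgti p hp hp11 K hext Log hLog (t ^ (e k) / p) (lL (e k) (e k) (A k) (g k))
    (lL (e k) (e l) (A l) (g l)) (lL (e k) (e i) (A i) (g i)) h a (g j) ζ Qv Qu A' B' (rh p E)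
    hrh6 hz hz1 (hslope k hek) (hslope l (le_trans hek hekl)) (hslope i hei) hl12 hh ha hUg hζ
    (le_trans hle htrh) hQv hQu hA' hB' hQ hlast

/-- RTL. -/
theorem rtl (_hurr : ZP3.URRStmt) (hthb : ZP3.THBStmt) (hunv : UnvStmt) (hnum : NumStmt)
    (hpbl : PblStmt) (htpl : TplStmt) (hqvi : QviStmt) (hgti : GtiStmt) : RtlStmt := by
  intro U hU p E hp hE hpE K _ _ _ _ _ hext Log hLog L hL n e A g hCd hele hGen i j k l hkl hei
    hek hel
  rcases le_total (e k) (e l) with h | h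
  · exact rtl_aux hthb hunv hnum hpbl htpl hqvi hgti U hU p E hp hE hpE K hext Log hLog L hL
      n e A g hCd hele hGen i j k l hkl hei hek h
  · obtain ⟨M, hM⟩ := rtl_aux hthb hunv hnum hpbl htpl hqvi hgti U hU p E hp hE hpE K hext
      Log hLog L hL n e A g hCd hele hGen i j l k (Ne.symm hkl) hei hel h
    refine ⟨M, ?_⟩
    intro t q ht0 hLi hSj hLk hLl hAt hDij hDkl
    obtain ⟨a, b, ha, hb, hab⟩ := hDkl
    obtain ⟨a', b', h1, h2, h3, h4, h5⟩ := hM t q ht0 hLi hSj hLl hLk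
      (fun u hu => hAt u (by
        simp only [Set.mem_insert_iff, Set.mem_singleton_iff] at hu ⊢
        tauto)) hDij ⟨b, a, hb, ha, hab.symm⟩
    exact ⟨b', a', h3, h4, h1, h2, h5.symm⟩

end Pool.Agent.ZPK.H71
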